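import Pool.Agent.helper76.FF2.Spec

/-!
# Row ff2:BIR (MP_bbe200_nt): the Berlekamp sum of an irreducible polynomial
-/

set_option autoImplicit false

namespace Pool.Agent.FF2

open Polynomial

/-- the Berlekamp sum of the first `k` members of a sequence -/
theorem BIR_Bp {K : Type*} [Field K] [CharP K 2] (h1 : E2A_stmt K) (a : ℕ → K) (d : ℕ)
    (ha : ∀ i j : ℕ, i < j → j < d → a i ≠ a j) : ∀ k : ℕ, k ≤ d → ∀ R : Finset K,
      (∀ x, x ∈ R ↔ ∃ i < k, a i = x) →
      Bp R = ∑ j ∈ Finset.range k, ∑ i ∈ Finset.range j, a i * a j / (a i + a j) ^ 2 := by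
  classical
  intro k
  induction k with
  | zero =>
    intro _ R hR
    have : R = ∅ := by
      apply Finset.eq_empty_of_forall_notMem
      intro x hx
      obtain ⟨i, hi, _⟩ := (hR x).1 hx
      omega
    rw [this, h1.2.2.1]
    simp
  | succ k ih =>
    intro hk R hR
    have hinj : Set.InjOn a (Finset.range k : Set ℕ) := by
      intro i hi j hj hij
      rw [Finset.coe_range, Set.mem_Iio] at hi hj
      rcases lt_trichotomy i j with h | h | h
      · exact absurd hij (ha i j h (by omega))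
      · exact h
      · exact absurd hij.symm (ha j i h (by omega))
    have hnot : a k ∉ (Finset.range k).image a := by
      intro h
      obtain ⟨i, hi, hik⟩ := Finset.mem_image.1 h
      exact ha i k (Finset.mem_range.1 hi) (by omega) hik
    have hRe : R = Finset.cons (a k) ((Finset.range k).image a) hnot := by
      ext x
      rw [hR x, Finset.mem_cons, Finset.mem_image]
      constructor
      · rintro ⟨i, hi, rfl⟩
        rcases Nat.lt_succ_iff_lt_or_eq.1 hi with h | h
        · exact Or.inr ⟨i, Finset.mem_range.2 h, rfl⟩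
        · subst h
          exact Or.inl rfl
      · rintro (rfl | ⟨i, hi, rfl⟩)
        · exact ⟨k, Nat.lt_succ_self k, rfl⟩
        · exact ⟨i, (Finset.mem_range.1 hi).trans (Nat.lt_succ_self k), rfl⟩
    have h2 := ih (by omega) ((Finset.range k).image a) (by
      intro x
      rw [Finset.mem_image]
      constructor
      · rintro ⟨i, hi, hx⟩
        exact ⟨i, Finset.mem_range.1 hi, hx⟩
      · rintro ⟨i, hi, hx⟩
        exact ⟨i, Finset.mem_range.2 hi, hx⟩)
    rw [hRe, h1.2.2.2.1, h2, Finset.sum_range_succ, Finset.sum_image hinj]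
    refine congrArg _ (Finset.sum_congr rfl fun i _ => ?_)
    rw [mul_comm (a k) (a i), add_comm (a k) (a i)]

theorem BIR_core {K : Type*} [Field K] [CharP K 2] (a : ℕ → K) (n : ℕ)
    (ha : ∀ i j : ℕ, i < j → j < n + 1 → a i ≠ a j) (hn : a (n + 1) = a 0) :
    (∑ j ∈ Finset.range (n + 1), ∑ i ∈ Finset.range j, a (i + 1) / (a (i + 1) + a (j + 1))) +
      ∑ j ∈ Finset.range (n + 1), ∑ i ∈ Finset.range j, a i / (a i + a j) = (n : K) := by
  have e1 : ∑ j ∈ Finset.range (n + 1), ∑ i ∈ Finset.range j, a i / (a i + a j) =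
      (∑ j ∈ Finset.range n, ∑ i ∈ Finset.range j, a (i + 1) / (a (i + 1) + a (j + 1))) +
        ∑ j ∈ Finset.range n, a 0 / (a 0 + a (j + 1)) := by
    rw [Finset.sum_range_succ', Finset.sum_range_zero, add_zero, ← Finset.sum_add_distrib]
    refine Finset.sum_congr rfl fun j _ => ?_
    rw [Finset.sum_range_succ']
  have e2 : ∑ j ∈ Finset.range (n + 1), ∑ i ∈ Finset.range j, a (i + 1) / (a (i + 1) + a (j + 1)) =
      (∑ j ∈ Finset.range n, ∑ i ∈ Finset.range j, a (i + 1) / (a (i + 1) + a (j + 1))) +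
        ∑ j ∈ Finset.range n, a (j + 1) / (a (j + 1) + a 0) := by
    rw [Finset.sum_range_succ, hn]
  rw [e1, e2]
  have e3 : ∀ x y z : K, (x + y) + (x + z) = y + z := by
    intro x y z
    have : (x + y) + (x + z) = (x + x) + (y + z) := by ring
    rw [this, CharTwo.add_self_eq_zero, zero_add]
  rw [e3, ← Finset.sum_add_distrib]
  have e4 : ∀ j ∈ Finset.range n, a (j + 1) / (a (j + 1) + a 0) + a 0 / (a 0 + a (j + 1)) = 1 := by
    intro j hj
    have hne : a 0 ≠ a (j + 1) := ha 0 (j + 1) (Nat.succ_pos j) (by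
      have := Finset.mem_range.1 hj
      omega)
    have hs : a (j + 1) + a 0 ≠ 0 := by
      intro h
      apply hne
      have h5 : a 0 = -a (j + 1) := by
        rw [eq_neg_iff_add_eq_zero, add_comm]
        exact h
      rw [h5, CharTwo.neg_eq]
    rw [add_comm (a 0) (a (j + 1)), ← add_div, div_self hs]
  rw [Finset.sum_congr rfl e4]
  simp

theorem BIR (F : Type*) [Field F] [Fintype F] [CharP F 2] (h1 : E2A_stmt (AlgebraicClosure F))
    (h2 : BT0_stmt (AlgebraicClosure F)) : BIR_stmt F := by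
  classical
  intro m hm P hP hi
  obtain ⟨α, hα⟩ := Pool.Agent.helper36.FF.exists_root_irr hP hi
  set a : ℕ → AlgebraicClosure F := fun i => α ^ (Fintype.card F ^ i) with haDef
  have hd : 0 < P.natDegree := hi.natDegree_pos
  obtain ⟨n, hn⟩ : ∃ n, P.natDegree = n + 1 := ⟨P.natDegree - 1, by omega⟩
  have ha : ∀ i j : ℕ, i < j → j < n + 1 → a i ≠ a j := fun i j hij hj =>
    Pool.Agent.helper36.FF.root_pow_inj hP hi hα hij (by omega)
  have ha0 : a (n + 1) = a 0 := by
    have h := Pool.Agent.helper36.FF.root_pow_natDegree hP hi hα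
    simp only [haDef, pow_zero, pow_one]
    rw [← hn]
    exact h
  have hR : ∀ x, x ∈ rs P ↔ ∃ i < n + 1, a i = x := by
    intro x
    unfold rs
    rw [Multiset.mem_toFinset, Pool.Agent.helper36.FF.aroots_irr hP hi hα, Multiset.mem_map]
    constructor
    · rintro ⟨i, _, hx⟩
      exact ⟨i, by have := i.2; omega, hx⟩
    · rintro ⟨i, hi', hx⟩
      exact ⟨⟨i, by omega⟩, Finset.mem_univ (⟨i, by omega⟩ : Fin P.natDegree), hx⟩
  have h3 := BIR_Bp h1 a (n + 1) ha (n + 1) le_rfl (rs P) hR
  set T : AlgebraicClosure F :=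
    ∑ j ∈ Finset.range (n + 1), ∑ i ∈ Finset.range j, a i / (a i + a j) with hT
  have h4 : Bp (rs P) = T ^ 2 + T := by
    rw [h3, hT, CharTwo.sum_sq, ← Finset.sum_add_distrib]
    refine Finset.sum_congr rfl fun j hj => ?_
    rw [CharTwo.sum_sq, ← Finset.sum_add_distrib]
    refine Finset.sum_congr rfl fun i hi' => ?_
    have hne : a i ≠ a j := ha i j (Finset.mem_range.1 hi') (Finset.mem_range.1 hj)
    have hs : a i + a j ≠ 0 := by
      intro h
      apply hne
      have h5 : a i = -a j := by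
        rw [eq_neg_iff_add_eq_zero]
        exact h
      rw [h5, CharTwo.neg_eq]
    have h6 : (a i / (a i + a j)) ^ 2 + a i / (a i + a j) =
        (a i ^ 2 + a i * (a i + a j)) / (a i + a j) ^ 2 := by
      field_simp
    rw [h6]
    have h7 : a i ^ 2 + a i * (a i + a j) = (a i ^ 2 + a i ^ 2) + a i * a j := by ring
    rw [h7, CharTwo.add_self_eq_zero, zero_add]
  have hpow : ∀ i : ℕ, a i ^ 2 ^ m = a (i + 1) := by
    intro i
    simp only [haDef]
    rw [← hm, ← pow_mul, ← pow_succ]
  have h5 : T ^ 2 ^ m =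
      ∑ j ∈ Finset.range (n + 1), ∑ i ∈ Finset.range j, a (i + 1) / (a (i + 1) + a (j + 1)) := by
    rw [hT, sum_pow_char_pow 2 m]
    refine Finset.sum_congr rfl fun j _ => ?_
    rw [sum_pow_char_pow 2 m]
    refine Finset.sum_congr rfl fun i _ => ?_
    rw [div_pow, add_pow_char_pow, hpow, hpow]
  rw [h4, h2.2.2.1, h5, hT, BIR_core a n ha ha0, hn]
  push_cast
  rw [add_assoc, CharTwo.add_self_eq_zero, add_zero]

end Pool.Agent.FF2
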